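import Pool.Agent.V5helper51.HM.All

set_option autoImplicit false

/-!
# The moments of all orders of zeta near the critical line in almost all short windows

Let `d = d(T)` tend to `0` with `d log T / log²(1/d) → ∞`. For every real `k > 0` the average of `|ζ(1/2 + d + iu)|^(2k)` over
`[t, t + H]` is asymptotically `a(k) (2d)^(-k²)` for almost all `t ≤ T` if `H ≥ d^(-θ)` with `θ > max(0, k² - 1)`, and it is of
smaller order for almost all `t ≤ T` if `H ≤ d^(-θ)` with `0 ≤ θ < k² - 1`.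
-/

namespace Pool.Agent.Results.MP_6a632e_nt.AlmostAllWindows

open MeasureTheory Filter Topology

/-- the arithmetic factor of the moment conjecture,
`a(k) = ∏_p (1 - 1/p)^{k²} Σ_m (k (k+1) ... (k+m-1) / m!)² p^{-m}` -/
noncomputable def ak (k : ℝ) : ℝ :=
  ∏' p : Nat.Primes, ((1 - 1 / (p : ℝ)) ^ (k ^ 2) *
    ∑' m : ℕ, (∏ i ∈ Finset.range m, (k + i) / ((i : ℝ) + 1)) ^ 2 * (1 / (p : ℝ)) ^ m)

/-- the average of `|ζ|^(2k)` over the window `[t, t + H]` at distance `d` from the critical line, divided by the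
predicted value `a(k) (2d)^(-k²)` -/
noncomputable def W (k d H t : ℝ) : ℝ :=
  ((1 / H) * ∫ u in t..(t + H), ‖riemannZeta (1 / 2 + d + u * Complex.I)‖ ^ (2 * k)) / (ak k * (2 * d) ^ (-(k ^ 2)))

/-- the proportion of the points of `[0, T]` in the set `S` -/
noncomputable def frac (T : ℝ) (S : Set ℝ) : ℝ := (volume (S ∩ Set.Icc 0 T)).toReal / T

theorem result (d : ℝ → ℝ) (hd0 : ∀ᶠ T : ℝ in atTop, 0 < d T) (hd : Tendsto d atTop (𝓝 0))
    (hdL : Tendsto (fun T : ℝ => d T * Real.log T / Real.log (1 / d T) ^ 2) atTop atTop)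
    (k : ℝ) (hk : 0 < k) (H : ℝ → ℝ) (η : ℝ) (hη : 0 < η) :
    (∀ θ D : ℝ, 0 < θ → k ^ 2 - 1 < θ → (∀ᶠ T : ℝ in atTop, d T ^ (-θ) ≤ H T ∧ H T ≤ d T ^ (-D)) →
      Tendsto (fun T : ℝ => frac T {t : ℝ | η ≤ |W k (d T) (H T) t - 1|}) atTop (𝓝 0)) ∧
    (∀ θ : ℝ, 0 ≤ θ → θ < k ^ 2 - 1 → (∀ᶠ T : ℝ in atTop, 0 < H T ∧ H T ≤ d T ^ (-θ)) →
      Tendsto (fun T : ℝ => frac T {t : ℝ | η ≤ W k (d T) (H T) t}) atTop (𝓝 0)) :=
  Pool.Agent.V5helper51.HM.rA Pool.Agent.V5helper51.HM.core3 Pool.Agent.V5helper51.HM.supz_all d hd0 hd hdL k hk H η hη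

end Pool.Agent.Results.MP_6a632e_nt.AlmostAllWindows
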