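import Pool.Agent.V5helper51.HM.All

set_option autoImplicit false

/-!
# The exponents of the moments of all orders of zeta near the critical line in almost all windows: freezing

Let `d = d(T)` tend to `0` with `d log T / log²(1/d) → ∞`, and let the length of the windows be `H(T) = d^(-θ+o(1)) ≥ 1`,
`θ ≥ 0`. For every real `k > 0` the average of `|ζ(1/2 + d + iu)|^(2k)` over `[t, t + H]` is `d^(-E + o(1))` for almost all
`t ≤ T`, where `E = k²` for `k ≤ √(1+θ)` and `E = 2k√(1+θ) - (1+θ)` for `k ≥ √(1+θ)`.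
-/

namespace Pool.Agent.Results.MP_6a632e_nt.FreezingInWindows

open MeasureTheory Filter Topology

/-- the average of `|ζ|^(2k)` over the window `[t, t + H]` at distance `d` from the critical line -/
noncomputable def A (k d H t : ℝ) : ℝ := (1 / H) * ∫ u in t..(t + H), ‖riemannZeta (1 / 2 + d + u * Complex.I)‖ ^ (2 * k)

/-- the exponent: `k²` for `k ≤ √(1+θ)`, `2k√(1+θ) - (1+θ)` for `k ≥ √(1+θ)` -/
noncomputable def E (k θ : ℝ) : ℝ := 2 * k * min k (Real.sqrt (1 + θ)) - min k (Real.sqrt (1 + θ)) ^ 2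

/-- the proportion of the points of `[0, T]` in the set `S` -/
noncomputable def frac (T : ℝ) (S : Set ℝ) : ℝ := (volume (S ∩ Set.Icc 0 T)).toReal / T

theorem result (d H : ℝ → ℝ) (hd0 : ∀ᶠ T : ℝ in atTop, 0 < d T) (hd : Tendsto d atTop (𝓝 0))
    (hdL : Tendsto (fun T : ℝ => d T * Real.log T / Real.log (1 / d T) ^ 2) atTop atTop)
    (θ : ℝ) (hθ : 0 ≤ θ) (hH1 : ∀ᶠ T : ℝ in atTop, 1 ≤ H T)
    (hH : Tendsto (fun T : ℝ => Real.log (H T) / Real.log (1 / d T)) atTop (𝓝 θ))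
    (k : ℝ) (hk : 0 < k) (e : ℝ) (he : 0 < e) :
    Tendsto (fun T : ℝ => frac T {t : ℝ | ¬ (d T ^ (-E k θ + e) ≤ A k (d T) (H T) t ∧
      A k (d T) (H T) t ≤ d T ^ (-E k θ - e))}) atTop (𝓝 0) :=
  Pool.Agent.V5helper51.HM.rB Pool.Agent.V5helper51.HM.core3 Pool.Agent.V5helper51.HM.supz_all
    Pool.Agent.V5helper51.HM.w0_all d H hd0 hd hdL θ hθ hH1 hH k hk e he

end Pool.Agent.Results.MP_6a632e_nt.FreezingInWindows
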