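import Pool.Agent.V5helper51.PL.All

/-!
# The frequency of the large values of zeta near the critical line in almost all windows

Let `d = d(T)` tend to `0` with `d log T / log²(1/d) → ∞`, and let `V > 0`. For `θ > 0`, `θ > V² - 1`, and windows `[t, t + H]` of
length `H(T)` between `d^(-θ)` and any fixed power `d^(-D)`, for almost all `t ≤ T` the proportion of the points `u` of the window
with `|ζ(1/2 + d + iu)| > (2d)^(-V)` is asymptotically equal to `a(V) (2d)^(V²) / (2V √(π log(1/(2d))))`, with the arithmetic factor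
`a(V)` of the moment conjecture. For windows of length `H = d^(-θ+o(1)) ≥ 1`, `θ ≥ 0`, `V² < 1 + θ`, it is `d^(V² + o(1))` (new for
`θ = 0`, `V < 1`). If `V² > 1 + θ`, `θ ≥ 0`, there is no such point in almost all windows of length at most `d^(-θ)`.

The first part is proved by the second moment method with a barrier, from the joint complex moments of the starting project
`N748.MJ`.
-/

namespace Pool.Agent.Results.MP_6a632e_nt.LargeValueFrequencies

open MeasureTheory Filter Topology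

/-- the arithmetic factor of the moment conjecture -/
noncomputable def ak (k : ℝ) : ℝ :=
  ∏' p : Nat.Primes, ((1 - 1 / (p : ℝ)) ^ (k ^ 2) *
    ∑' m : ℕ, (∏ i ∈ Finset.range m, (k + i) / ((i : ℝ) + 1)) ^ 2 * (1 / (p : ℝ)) ^ m)

/-- the modulus of zeta at distance `d` from the critical line and height `u` -/
noncomputable def z (d u : ℝ) : ℝ := ‖riemannZeta (1 / 2 + d + u * Complex.I)‖

/-- the proportion of the window `[t, t + H]` on which `z > (2d)^(-V)` -/
noncomputable def L (V d H t : ℝ) : ℝ := (volume {u : ℝ | t ≤ u ∧ u ≤ t + H ∧ (2 * d) ^ (-V) < z d u}).toReal / H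

/-- the prediction for this proportion -/
noncomputable def M (V d : ℝ) : ℝ :=
  ak V * (2 * d) ^ (V ^ 2) / (2 * V * Real.sqrt (Real.pi * Real.log (1 / (2 * d))))

/-- the proportion of the points of `[0, T]` in the set `S` -/
noncomputable def frac (T : ℝ) (S : Set ℝ) : ℝ := (volume (S ∩ Set.Icc 0 T)).toReal / T

theorem result (d H : ℝ → ℝ) (hd0 : ∀ᶠ T : ℝ in atTop, 0 < d T) (hd : Tendsto d atTop (𝓝 0))
    (hdL : Tendsto (fun T : ℝ => d T * Real.log T / Real.log (1 / d T) ^ 2) atTop atTop) (V : ℝ) (hV : 0 < V) :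
    (∀ θ D η : ℝ, 0 < θ → V ^ 2 < 1 + θ → 0 < η → (∀ᶠ T : ℝ in atTop, d T ^ (-θ) ≤ H T ∧ H T ≤ d T ^ (-D)) →
      Tendsto (fun T : ℝ => frac T {t : ℝ | η ≤ |L V (d T) (H T) t / M V (d T) - 1|}) atTop (𝓝 0)) ∧
    (∀ θ : ℝ, 0 ≤ θ → 1 + θ < V ^ 2 → (∀ᶠ T : ℝ in atTop, H T ≤ d T ^ (-θ)) →
      Tendsto (fun T : ℝ => frac T {t : ℝ | ∃ u : ℝ, t ≤ u ∧ u ≤ t + H T ∧ (2 * d T) ^ (-V) < z (d T) u})
        atTop (𝓝 0)) ∧
    (∀ θ e : ℝ, 0 ≤ θ → V ^ 2 < 1 + θ → 0 < e → (∀ᶠ T : ℝ in atTop, 1 ≤ H T) →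
      Tendsto (fun T : ℝ => Real.log (H T) / Real.log (1 / d T)) atTop (𝓝 θ) →
      Tendsto (fun T : ℝ => frac T {t : ℝ | ¬ (d T ^ (V ^ 2 + e) ≤ L V (d T) (H T) t ∧
        L V (d T) (H T) t ≤ d T ^ (V ^ 2 - e))}) atTop (𝓝 0)) :=
  ⟨(Pool.Agent.V5helper51.PL.rP d H hd0 hd hdL V hV).1, (Pool.Agent.V5helper51.PL.rP d H hd0 hd hdL V hV).2,
    fun θ e hθ hVθ he hH1 hH => Pool.Agent.V5helper51.PL.rQ d H hd0 hd hdL V hV θ hθ hVθ hH1 hH e he⟩

end Pool.Agent.Results.MP_6a632e_nt.LargeValueFrequencies
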