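import Pool.Agent.V5helper51.EG.All

/-!
# The maximum of zeta near the critical line, and the frozen moments, in almost all windows, up to slowly growing factors

Let `d = d(T)` tend to `0` with `d log T / log²(1/d) → ∞`, let `θ > 0`, `V = √(1 + θ)`, and consider the windows `[t, t + H]`,
`t ≤ T`, of length `H ≍ d^(-θ)`. For every `G(T) → ∞`, for almost all `t ≤ T`:

* the maximum of `|ζ(1/2 + d + iu)|` over the window is between `M/G` and `M G`, `M = (2d)^(-V) (log 1/(2d))^(-1/(4V))`;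
* for `k > V` (the frozen phase) the average of `|ζ(1/2 + d + iu)|^(2k)` over the window is between `P/G` and `P G`,
  `P = (2d)^(-(2kV - V²)) (log 1/(2d))^(-k/(2V))`;
* if `y(T) → 0` is at least a power of `1 / log(1/(2d))`, the proportion of the points `u` of the window with
  `|ζ(1/2 + d + iu)| > M y` is asymptotically equal to `a(V)/(2V√π) (2d)^(V²) y^(-2V)`.

The second order term `(log 1/(2d))^(-1/(4V))` is the one predicted by the random energy model; it was known for random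
models of zeta only. The proof is by the second moment method with a barrier at all scales, from the joint complex moments of
the starting project `N748.MJ`.
-/

namespace Pool.Agent.Results.MP_6a632e_nt.MaximumInWindows

open MeasureTheory Filter Topology

/-- the arithmetic factor of the moment conjecture -/
noncomputable def ak (k : ℝ) : ℝ :=
  ∏' p : Nat.Primes, ((1 - 1 / (p : ℝ)) ^ (k ^ 2) *
    ∑' m : ℕ, (∏ i ∈ Finset.range m, (k + i) / ((i : ℝ) + 1)) ^ 2 * (1 / (p : ℝ)) ^ m)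

/-- the modulus of zeta at distance `d` from the critical line and height `u` -/
noncomputable def z (d u : ℝ) : ℝ := ‖riemannZeta (1 / 2 + d + u * Complex.I)‖

/-- the average of `z^(2k)` over the window -/
noncomputable def A (k d H t : ℝ) : ℝ := (1 / H) * ∫ u in t..(t + H), z d u ^ (2 * k)

/-- the proportion of the points of the window with `z > c` -/
noncomputable def L (c d H t : ℝ) : ℝ := (volume {u : ℝ | t ≤ u ∧ u ≤ t + H ∧ c < z d u}).toReal / H

/-- the predicted size of the maximum -/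
noncomputable def M (θ d : ℝ) : ℝ :=
  (2 * d) ^ (-Real.sqrt (1 + θ)) * Real.log (1 / (2 * d)) ^ (-(1 / (4 * Real.sqrt (1 + θ))))

/-- the predicted order of the average -/
noncomputable def P (k θ d : ℝ) : ℝ :=
  (2 * d) ^ (-(2 * k * Real.sqrt (1 + θ) - (1 + θ))) * Real.log (1 / (2 * d)) ^ (-(k / (2 * Real.sqrt (1 + θ))))

/-- the predicted frequency of the values beyond `M y` -/
noncomputable def Q (θ d y : ℝ) : ℝ :=
  ak (Real.sqrt (1 + θ)) / (2 * Real.sqrt (1 + θ) * Real.sqrt Real.pi) * (2 * d) ^ (1 + θ) *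
    y ^ (-(2 * Real.sqrt (1 + θ)))

/-- the proportion of the points of `[0, T]` in the set `S` -/
noncomputable def frac (T : ℝ) (S : Set ℝ) : ℝ := (volume (S ∩ Set.Icc 0 T)).toReal / T

theorem result (d H : ℝ → ℝ) (hd0 : ∀ᶠ T : ℝ in atTop, 0 < d T) (hd : Tendsto d atTop (𝓝 0))
    (hdL : Tendsto (fun T : ℝ => d T * Real.log T / Real.log (1 / d T) ^ 2) atTop atTop) (θ A0 : ℝ) (hθ : 0 < θ)
    (hA : 0 < A0) (hH : ∀ᶠ T : ℝ in atTop, d T ^ (-θ) / A0 ≤ H T ∧ H T ≤ A0 * d T ^ (-θ)) :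
    (∀ G : ℝ → ℝ, Tendsto G atTop atTop → Tendsto (fun T : ℝ => frac T {t : ℝ |
      ¬ ((∃ u : ℝ, t ≤ u ∧ u ≤ t + H T ∧ M θ (d T) / G T < z (d T) u) ∧
        ∀ u : ℝ, t ≤ u → u ≤ t + H T → z (d T) u < M θ (d T) * G T)}) atTop (𝓝 0)) ∧
    (∀ k : ℝ, Real.sqrt (1 + θ) < k → ∀ G : ℝ → ℝ, Tendsto G atTop atTop → Tendsto (fun T : ℝ => frac T {t : ℝ |
      ¬ (P k θ (d T) / G T ≤ A k (d T) (H T) t ∧ A k (d T) (H T) t ≤ P k θ (d T) * G T)}) atTop (𝓝 0)) ∧
    (∀ (y : ℝ → ℝ) (B η : ℝ), 0 < η → Tendsto y atTop (𝓝 0) →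
      (∀ᶠ T : ℝ in atTop, Real.log (1 / (2 * d T)) ^ (-B) ≤ y T) → Tendsto (fun T : ℝ => frac T {t : ℝ |
      η ≤ |L (M θ (d T) * y T) (d T) (H T) t / Q θ (d T) (y T) - 1|}) atTop (𝓝 0)) :=
  Pool.Agent.V5helper51.EG.rE d H hd0 hd hdL θ A0 hθ hA hH

end Pool.Agent.Results.MP_6a632e_nt.MaximumInWindows
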